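import Pool.Agent.Lib.MP_1a39b9_al.RG.N5
import Pool.Agent.Lib.MP_1a39b9_al.RG.FR

/-!
# Almost all group laws with central elementary abelian Frattini subgroup have no relation gap

For a prime `p` consider the group laws on the set `{0, …, p ^ n - 1}` whose Frattini subgroup is central and
of exponent dividing `p`. (These are the `p`-groups of Frattini class at most `2`, which Higman and Sims use
for the leading term of the number of all groups of order `p ^ n`.) The proportion of those laws which have
equal discrete and pro-`p` relation numbers tends to `1` as `n` tends to infinity.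

The proof (files in `Pool/Agent/Lib/MP_1a39b9_al/RG/`). Let the Frattini subgroup `Φ` have rank `e`, `d + e = n`.
(I) Every pro-`p` presentation needs at least `D - e` relators, `D = d (d + 1) / 2` (`lower_bound`). If there are
generators of which three special ones satisfy the conditions `Gd` on commutators, `D - e` discrete relators
suffice: the relators `[x, x'] = w(x, x')`, `x ^ p = w(x)` with words in `e` of the commutators, chosen such
that several families of them generate the free group on these `e` letters (`lemmaW`); then the subgroup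
generated by the commutators is central (`core`).
(II) For `5 e ≤ 3 d` almost all alternating families of commutators satisfy the conditions after a change
of the generators (`shift_count`, `bad_count`).
(III) Group laws marked by generators and a basis of `Φ` correspond to spanning families and bijections
(`card_Mset`, `laws_total`, `laws_bad`).
(IV) The types with `3 d < 5 e` are negligible (`neg_types`).
-/

set_option autoImplicit false

namespace Pool.Agent.Results.MP_1a39b9_al.AlmostAllFrattiniClassTwo

open Pool.Agent.RG

/-- The Frattini subgroup is central and of exponent dividing `p`. -/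
def FrattiniCentral (p : ℕ) (G : Type) [Group G] : Prop :=
  frattini G ≤ Subgroup.center G ∧ ∀ x ∈ frattini G, x ^ p = 1

/-- `d` is the minimal number of generators of `G`, and `G` has a discrete presentation `ψ`, `T` on `d`
generators which is at least as short as every presentation `φ`, `S` of `G` as a pro-`p` group on `d`
generators. -/
def NoRelationGap (p : ℕ) (G : Type) [Group G] : Prop :=
  ∃ d : ℕ, (∃ φ : FreeGroup (Fin d) →* G, Function.Surjective φ) ∧
    (∀ m < d, ∀ φ : FreeGroup (Fin m) →* G, ¬ Function.Surjective φ) ∧
    ∃ (ψ : FreeGroup (Fin d) →* G) (T : Finset (FreeGroup (Fin d))),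
      Function.Surjective ψ ∧ Subgroup.normalClosure (T : Set (FreeGroup (Fin d))) = ψ.ker ∧
      ∀ (φ : FreeGroup (Fin d) →* G) (S : Finset (FreeGroup (Fin d))),
        Function.Surjective φ →
        Subgroup.normalClosure (S : Set (FreeGroup (Fin d))) ≤ φ.ker →
        (∀ K : Subgroup (FreeGroup (Fin d)), K.Normal → (∃ n : ℕ, K.index = p ^ n) →
          Subgroup.normalClosure (S : Set (FreeGroup (Fin d))) ≤ K → φ.ker ≤ K) →
        T.card ≤ S.card

theorem result (p : ℕ) [Fact p.Prime] :
    Filter.Tendsto (fun n : ℕ =>
      (Set.ncard {I : Group (Fin (p ^ n)) |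
        @FrattiniCentral p (Fin (p ^ n)) I ∧ @NoRelationGap p (Fin (p ^ n)) I} : ℝ) /
      (Set.ncard {I : Group (Fin (p ^ n)) | @FrattiniCentral p (Fin (p ^ n)) I} : ℝ))
      Filter.atTop (nhds 1) := by
  have key : ∀ (n : ℕ) (I : Group (Fin (p ^ n))),
      (@FrattiniCentral p (Fin (p ^ n)) I ↔ @PC2 p (Fin (p ^ n)) I) ∧
      (@NoRelationGap p (Fin (p ^ n)) I ↔ @NoGap p (Fin (p ^ n)) I) := by
    intro n I
    let _ := I
    refine ⟨frattini_iff (IsPGroup.of_card (n := n) (by simp)), ?_⟩
    constructor
    · rintro ⟨d, h1, h2, ψ, T, h3, h4, h5⟩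
      exact ⟨d, h1, h2, ψ, T, ⟨h3, h4⟩, fun φ S h => h5 φ S h.surj h.le h.ker_le⟩
    · rintro ⟨d, h1, h2, ψ, T, h3, h5⟩
      exact ⟨d, h1, h2, ψ, T, h3.surj, h3.eq, fun φ S k1 k2 k3 => h5 φ S ⟨k1, k2, k3⟩⟩
  have h := limit p
  refine h.congr (fun n => ?_)
  have e1 : {I : Group (Fin (p ^ n)) |
      @FrattiniCentral p (Fin (p ^ n)) I ∧ @NoRelationGap p (Fin (p ^ n)) I} =
      {I : Group (Fin (p ^ n)) | @PC2 p (Fin (p ^ n)) I ∧ @NoGap p (Fin (p ^ n)) I} := by
    ext I
    exact and_congr (key n I).1 (key n I).2
  have e2 : {I : Group (Fin (p ^ n)) | @FrattiniCentral p (Fin (p ^ n)) I} = Cls p n := by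
    ext I
    exact (key n I).1
  rw [e1, e2]

end Pool.Agent.Results.MP_1a39b9_al.AlmostAllFrattiniClassTwo
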