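import Pool.Agent.Lib.MP_1a39b9_al.PR.F

/-!
# The relation gap of direct products of finite `p`-groups

`r1 G`, `r2 p G`: the numbers `r_1(G)`, `r_2(G)` of the problem, presentations as in the frozen statements S00837,
S00838 (the relators of the pro-`p` presentations are words; `S` presents `G` as a pro-`p` group if the kernel of the
presentation map lies in every normal subgroup of `p`-power index which contains `S`).

The theorem: for arbitrary finite `p`-groups `G_1, …, G_k` and every ultrametric `δ` on the set of the indices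
`r_1(G_1 × ⋯ × G_k) - r_2(G_1 × ⋯ × G_k)` is at most the largest of the numbers
`r_1(G_c) - ∑_j r_2(G_j) - ∑ d(G_i) d(G_j)`, the last sum over the pairs `i < j` which are nearer to each other than to `c`
(and at most `0` if none of these numbers is positive). With `δ = 0`: `r_1 = r_2` for `G_1 × ⋯ × G_k` if all
`r_1(G_c)` are at most `∑_j r_2(G_j)`; so `r_1 = r_2` for the direct powers `G ^ k`, `k ≥ r_1(G) / r_2(G)`, of every
finite `p`-group `G`.

The proof (files in `Pool/Agent/Lib/MP_1a39b9_al/PR/`). (S) A discrete presentation of `G_c` with `r_1(G_c)` relators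
is changed, by elementary operations, into one with `ρ_c` relators `s`, which present `G_c` as a pro-`p` group and are
independent modulo `R^p [R, F]`, and relators `e` in `[F, F] ∩ R^p [R, F]` (`exists_nf`). (M) In the presentation of the
direct product by the relators `s` and the commutators of generators of different factors each relator
absorbs at most one relator `e` of each factor: it is multiplied with the product of their inverses. The commutator
`[x, y]`, `x` in `G_i`, `y` in `G_j`, absorbs relators of the factors `G_c` which are farther from `i`, `j` than these from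
each other; a relator `s` of `G_j` absorbs relators of all `G_c`, `c ≠ j`. (N) In the group `H` so presented the
commutators `[x, y]` are central (`Host.cm_central`), modulo them the relators `s` and `e` are central
(`Host.central`), so that the kernel of the map of `H` onto the direct product is an abelian group of order prime
to `p`, central, and in the commutator subgroup of `H`; so it is trivial (`eq_bot_of`). (L) Every pro-`p` presentation of the
direct product has at least as many relators (`finrank_ge`).
-/

set_option autoImplicit false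

namespace Pool.Agent.Results.MP_1a39b9_al.DirectProducts

open Pool.Agent.RG

/-- `r_1(G)`: the least number of relators of a discrete presentation of `G` on `d(G)` generators. -/
noncomputable def r1 (G : Type) [Group G] [Finite G] : ℕ :=
  sInf {r | ∃ (π : FreeGroup (Fin (Group.rank G)) →* G) (T : Finset (FreeGroup (Fin (Group.rank G)))),
    Function.Surjective π ∧
    Subgroup.normalClosure (T : Set (FreeGroup (Fin (Group.rank G)))) = π.ker ∧ T.card = r}

/-- `r_2(G)`: the least number of relators of a presentation of `G` as a pro-`p` group on `d(G)` generators. -/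
noncomputable def r2 (p : ℕ) (G : Type) [Group G] [Finite G] : ℕ :=
  sInf {r | ∃ (π : FreeGroup (Fin (Group.rank G)) →* G) (S : Finset (FreeGroup (Fin (Group.rank G)))),
    Function.Surjective π ∧
    Subgroup.normalClosure (S : Set (FreeGroup (Fin (Group.rank G)))) ≤ π.ker ∧
    (∀ K : Subgroup (FreeGroup (Fin (Group.rank G))), K.Normal → (∃ n : ℕ, K.index = p ^ n) →
      Subgroup.normalClosure (S : Set (FreeGroup (Fin (Group.rank G)))) ≤ K → π.ker ≤ K) ∧
    S.card = r}

theorem result (p : ℕ) [Fact p.Prime] {k : ℕ} (G : Fin k → Type) [∀ i, Group (G i)] [∀ i, Finite (G i)]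
    (hG : ∀ i, IsPGroup p (G i)) (δ : Fin k → Fin k → ℕ) (hδ : ∀ i j, δ i j = δ j i)
    (hδ' : ∀ i j l, δ i l ≤ max (δ i j) (δ j l)) :
    r1 (∀ i, G i) ≤ r2 p (∀ i, G i) +
      Finset.univ.sup fun c : Fin k => r1 (G c) - (∑ j, r2 p (G j) +
        ∑ q ∈ Finset.univ.filter (fun q : Fin k × Fin k => q.1 < q.2 ∧ δ q.1 q.2 < δ q.1 c ∧
          δ q.1 q.2 < δ q.2 c), Group.rank (G q.1) * Group.rank (G q.2)) := by
  have e1 : ∀ (H : Type) [Group H] [Finite H], r1 H = Pool.Agent.RG.r1 (Group.rank H) H := by
    intro H _ _
    unfold r1 Pool.Agent.RG.r1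
    congr 1
    ext r
    constructor
    · rintro ⟨π, T, h1, h2, h3⟩
      exact ⟨π, T, ⟨h1, h2⟩, h3⟩
    · rintro ⟨π, T, h1, h3⟩
      exact ⟨π, T, h1.surj, h1.eq, h3⟩
  have e2 : ∀ (H : Type) [Group H] [Finite H], r2 p H = Pool.Agent.RG.r2 p (Group.rank H) H := by
    intro H _ _
    unfold r2 Pool.Agent.RG.r2
    congr 1
    ext r
    constructor
    · rintro ⟨π, T, h1, h2, h3, h4⟩
      exact ⟨π, T, ⟨h1, h2, h3⟩, h4⟩
    · rintro ⟨π, T, h1, h3⟩
      exact ⟨π, T, h1.surj, h1.le, h1.ker_le, h3⟩
  have e3 : ∀ i, r1 (G i) = Pool.Agent.RG.r1 (Group.rank (G i)) (G i) := fun i => e1 (G i)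
  have e4 : ∀ i, r2 p (G i) = Pool.Agent.RG.r2 p (Group.rank (G i)) (G i) := fun i => e2 (G i)
  rw [e1 (∀ i, G i), e2 (∀ i, G i)]
  refine PR.main p G hG δ hδ hδ' _ fun c => ?_
  rw [← e3 c]
  have e5 : ∑ j, Pool.Agent.RG.r2 p (Group.rank (G j)) (G j) = ∑ j, r2 p (G j) :=
    Finset.sum_congr rfl fun j _ => (e4 j).symm
  rw [e5]
  have h1 := Finset.le_sup (s := Finset.univ) (f := fun c : Fin k => r1 (G c) - (∑ j, r2 p (G j) +
        ∑ q ∈ Finset.univ.filter (fun q : Fin k × Fin k => q.1 < q.2 ∧ δ q.1 q.2 < δ q.1 c ∧
          δ q.1 q.2 < δ q.2 c), Group.rank (G q.1) * Group.rank (G q.2))) (Finset.mem_univ c)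
  have h2 := Nat.sub_le_iff_le_add.1 h1
  refine h2.trans (le_of_eq ?_)
  rw [add_assoc]

end Pool.Agent.Results.MP_1a39b9_al.DirectProducts
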