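import Pool.Agent.Lib.MP_1a39b9_al.RG.M3

/-!
# Discrete and pro-`p` relation numbers agree for `p`-groups with small commutator subgroup

Let `G` be a finite `p`-group with minimal number of generators `d` (`Group.rank G`) whose commutator
subgroup has order `p ^ c`, where `13 c² ≤ d`. Then `G` has a discrete presentation on `d` generators with
at most as many relators as any presentation of `G` as a pro-`p` group on `d` generators. Both relation
numbers are meant exactly as in the frozen statements S00837 and S00838: the relators of the pro-`p`
presentations are words, `S` presents `G` as a pro-`p` group if the kernel of the presentation map lies in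
every normal subgroup of `p`-power index which contains `S`. So these groups satisfy the negated form of
the question.

The proof (files in `Pool/Agent/Lib/MP_1a39b9_al/RG/`). Let `L` be the space of the homomorphisms `R → F_p`
invariant under conjugation, `R` the kernel of a minimal presentation; every pro-`p` presentation needs at
least `dim L` relators (`ProP.finrank_le`, `finrank_IL_le`). There are generators `x_1, …, x_k, y_1, …, y_N`
with `k ≤ 2c` such that the subgroup `G_0` generated by the `x_i` satisfies `G_0' = G'` and such that
`y_1, …, y_m`, `m = 4c + 1`, commute with the `x_i` and with each other (`exists_family`). `G` is presented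
by relators `[x_i, y_j] = c_ij`, `[y_j, y_l] = a_jl`, `y^v = b_v` and by at most `m (m - 1) / 2` relators
`rho_j` of `G_0` (`exists_dat`); the first ones are independent modulo `R^p [R, F]`. The superfluous relators
`rho_j` are absorbed: a relator `[y_l, y_l'] = 1` of two of the first `m` generators is replaced by
`[y_l, y_l'] = rho_j` (`Dat.rel'`). By two applications of the transfer into the centre the new relators
still define `G` (`Dat.disc`).
-/

set_option autoImplicit false

namespace Pool.Agent.Results.MP_1a39b9_al.SmallDerivedSubgroup

open Pool.Agent.RG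

theorem result (p : ℕ) [Fact p.Prime] (G : Type) [Group G] [Finite G] (hG : IsPGroup p G)
    (c : ℕ) (hc : Nat.card (commutator G) = p ^ c) (hd : 13 * c ^ 2 ≤ Group.rank G) :
    ∃ (ψ : FreeGroup (Fin (Group.rank G)) →* G) (T : Finset (FreeGroup (Fin (Group.rank G)))),
      Function.Surjective ψ ∧
      Subgroup.normalClosure (T : Set (FreeGroup (Fin (Group.rank G)))) = ψ.ker ∧
      ∀ (φ : FreeGroup (Fin (Group.rank G)) →* G) (S : Finset (FreeGroup (Fin (Group.rank G)))),
        Function.Surjective φ →
        Subgroup.normalClosure (S : Set (FreeGroup (Fin (Group.rank G)))) ≤ φ.ker →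
        (∀ K : Subgroup (FreeGroup (Fin (Group.rank G))), K.Normal → (∃ n : ℕ, K.index = p ^ n) →
          Subgroup.normalClosure (S : Set (FreeGroup (Fin (Group.rank G)))) ≤ K → φ.ker ≤ K) →
        T.card ≤ S.card := by
  obtain ⟨k, N, m, x, y, h1, h2, h3, h4, h5, h6, h7⟩ := exists_family hG hc hd
  obtain ⟨D, hD⟩ := exists_dat hG hc x y h1 h2 h3 h4 h5 h6 h7
  obtain ⟨I, hI, hsep⟩ := D.exists_I
  have h := Dat.disc hG D I hsep
  have hκ : Fintype.card (Fin D.k ⊕ Fin D.N) = Group.rank G := by
    rw [← hD]
    simp
  obtain ⟨ψ, T, hψ, hT⟩ := disc_congr (Fintype.equivFinOfCardEq hκ) h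
  refine ⟨ψ, T, hψ.surj, hψ.eq, fun φ S k1 k2 k3 => ?_⟩
  have hP : ProP p φ S := ⟨k1, k2, k3⟩
  have := hP.findim hG
  have l1 := finrank_IL_le h.surj D.fr hP.surj
  have l2 := hP.finrank_le hG
  rw [hT]
  exact hI.trans (l1.trans l2)

end Pool.Agent.Results.MP_1a39b9_al.SmallDerivedSubgroup
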