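import Pool.Agent.Lib.MP_1a39b9_al.WR.H

/-!
# The relation gap of wreath products of finite `p`-groups

`r1 G`, `r2 p G`: the numbers `r_1(G)`, `r_2(G)` of the problem, presentations as in the frozen statements S00837,
S00838 (the relators of the pro-`p` presentations are words; `S` presents `G` as a pro-`p` group if the kernel of the
presentation map lies in every normal subgroup of `p`-power index which contains `S`). `P ≀ᵣ Q` is the regular (standard)
wreath product, the semidirect product of the group of all functions `Q → P` and `Q`.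

The theorem, for arbitrary finite `p`-groups `P`, `Q`: if `r_1(P) ≤ |Q| (r_2(P) + g)` or `|P| ≤ |Q|` then the relation gap
`r_1(P ≀ Q) - r_2(P ≀ Q)` is at most `r_1(Q) - r_2(Q) + g`. So `r_1 = r_2` for `P ≀ Q` if `r_1(Q) = r_2(Q)` (for example `Q`
cyclic) and `|Q| ≥ r_1(P) / r_2(P)`, in particular if `|Q| ≥ |P|`.

The proof (files in `Pool/Agent/Lib/MP_1a39b9_al/WR/` and `PR/`). (S) A discrete presentation of `P` with `r_1(P)` relators
is changed, by elementary operations, into one with relators `s_i`, at least `r_2(P)` ones, independent modulo `R^p [R, F]`,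
and relators `e_l` in `[F, F] ∩ R^p [R, F]` (`exists_nf`). (G) `P ≀ Q` is presented by the relators
`s_i = ∏ ^q e_l`, the product over the elements `q ≠ 1` of `Q`, a different `e_l` for each place `(i, q)`, by `g` further
relators `∏ ^q e_l = 1`, by the relators of `Q` and by commutators `[x_i, ^h x_j]` for representatives `(i, j, h)` of the
classes of `(i, j, h) ~ (j, i, h⁻¹)`, `h ≠ 1`. In the group so presented the conjugates `^q ⟨x⟩` commute elementwise, so the `s_i` and
the `^q e_l` are central in the subgroup `B` generated by these conjugates (`Dt.absorb`). So the kernel of the map onto `P ≀ Q` is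
contained in the centre and in the commutator subgroup of `B`; `B` modulo it is a finite `p`-group, so its exponent is a power of `p`;
as it has no `p`-quotient central in the whole group its exponent is prime to `p`; it is trivial (`HostW.ker_le_ncl`).
(D) Every pro-`p` presentation of `P ≀ Q` has at least as many relators (`finrank_ge`): invariant homomorphisms of the kernel
into `F_p`, for the commutators the coordinates of maps onto groups of the Heisenberg type (`kapW`). (H) `r_1(P) ≤ |P| d(P)`
(Schreier) and `r_2(P) ≥ d(P)`, so the first hypothesis holds with `g = 0` if `|P| ≤ |Q|`.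
-/

set_option autoImplicit false

namespace Pool.Agent.Results.MP_1a39b9_al.WreathProducts

open Pool.Agent.RG

/-- `r_1(G)`: the least number of relators of a discrete presentation of `G` on `d(G)` generators. -/
noncomputable def r1 (G : Type) [Group G] [Finite G] : ℕ :=
  sInf {r | ∃ (π : FreeGroup (Fin (Group.rank G)) →* G) (T : Finset (FreeGroup (Fin (Group.rank G)))),
    Function.Surjective π ∧
    Subgroup.normalClosure (T : Set (FreeGroup (Fin (Group.rank G)))) = π.ker ∧ T.card = r}

/-- `r_2(G)`: the least number of relators of a presentation of `G` as a pro-`p` group on `d(G)` generators. -/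
noncomputable def r2 (p : ℕ) (G : Type) [Group G] [Finite G] : ℕ :=
  sInf {r | ∃ (π : FreeGroup (Fin (Group.rank G)) →* G) (S : Finset (FreeGroup (Fin (Group.rank G)))),
    Function.Surjective π ∧
    Subgroup.normalClosure (S : Set (FreeGroup (Fin (Group.rank G)))) ≤ π.ker ∧
    (∀ K : Subgroup (FreeGroup (Fin (Group.rank G))), K.Normal → (∃ n : ℕ, K.index = p ^ n) →
      Subgroup.normalClosure (S : Set (FreeGroup (Fin (Group.rank G)))) ≤ K → π.ker ≤ K) ∧
    S.card = r}

theorem result (p : ℕ) [Fact p.Prime] (P Q : Type) [Group P] [Finite P] [Group Q] [Finite Q]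
    (hP : IsPGroup p P) (hQ : IsPGroup p Q) (g : ℕ)
    (h : r1 P ≤ Nat.card Q * (r2 p P + g) ∨ Nat.card P ≤ Nat.card Q) :
    r1 (P ≀ᵣ Q) + r2 p Q ≤ r2 p (P ≀ᵣ Q) + r1 Q + g := by
  have e1 : ∀ (H : Type) [Group H] [Finite H], r1 H = Pool.Agent.RG.r1 (Group.rank H) H := by
    intro H _ _
    unfold r1 Pool.Agent.RG.r1
    congr 1
    ext r
    constructor
    · rintro ⟨π, T, h1, h2, h3⟩
      exact ⟨π, T, ⟨h1, h2⟩, h3⟩
    · rintro ⟨π, T, h1, h3⟩
      exact ⟨π, T, h1.surj, h1.eq, h3⟩
  have e2 : ∀ (H : Type) [Group H] [Finite H], r2 p H = Pool.Agent.RG.r2 p (Group.rank H) H := by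
    intro H _ _
    unfold r2 Pool.Agent.RG.r2
    congr 1
    ext r
    constructor
    · rintro ⟨π, T, h1, h2, h3, h4⟩
      exact ⟨π, T, ⟨h1, h2, h3⟩, h4⟩
    · rintro ⟨π, T, h1, h3⟩
      exact ⟨π, T, h1.surj, h1.le, h1.ker_le, h3⟩
  rw [e1 P, e2 P] at h
  rw [e1 Q, e2 Q, e1 (P ≀ᵣ Q), e2 (P ≀ᵣ Q)]
  rcases h with h | h
  · exact WR.main p hP hQ g h
  · exact (WR.main p hP hQ 0 (WR.hyp_of_card h)).trans (by omega)

end Pool.Agent.Results.MP_1a39b9_al.WreathProducts
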